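import Pool.Agent.T2H44.PL.Main

/-!
# Ivrii's conjecture for planar periodic orbits, and for orbits with coplanar sides, in dimension
`d ≥ 3`

Definitions (files `Pool/Agent/H721R2/Ivrii/Def.lean`, `Pool/Agent/TH746/UM/Curv.lean` and
`Pool/Agent/T2H44/PL/Def.lean`), for a set `Ω` (the table) in `ℝ^d`:

* `LocalDef Ω q F`: near `q` the table is `{F < 0}`, `F` is `C³` near `q`, `F q = 0` and the
  gradient of `F` at `q` is not zero;
* `SmoothAt Ω q`: for some such `F`, `F` is of class `C^∞` near `q`;
* `Umbilic Ω q`: for some such `F` at `q` and some `κ`, `F''(q)(w, w) = κ |∇F(q)| |w|²` for all
  tangent vectors `w` (`κ = 0` included), a condition at the single point `q`;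
* `OrbitMod Ω g n p u`: `(p k, u k)` is a billiard trajectory of unit speed (transversal reflections
  at regular boundary points) which is carried into itself by the isometry `g` after `n ≥ 1`
  bounces: `p (k+n) = g (p k)`, `u (k+n) = g' (u k)`, where `g'` is the linear part of `g`; `u k` is
  the direction of the side from `p k` to `p (k+1)`;
* `Cop u j`: the directions `u j`, `u (j+1)`, `u (j+2)` are linearly dependent, i.e. the side `j + 1`,
  from `p (j+1)` to `p (j+2)`, lies in one plane with the two adjacent sides;
* `CopEnd n u k`: the bounce `k` is an end of such a side: `Cop u j` for some `j` with `j + 1 ≡ k` or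
  `j + 2 ≡ k` modulo `n`;
* `PerCop Γ Ω`: the phase points `(p 0, u 0)` of the trajectories periodic modulo some `g ∈ Γ`, with
  any number `n` of bounces in a period, at `C^∞` points of the boundary, at most one of which is
  neither at an umbilic point nor an end of a coplanar side.

The theorem: for every `d ≥ 3`, if `Γ` is a countable set of isometries of `ℝ^d` preserving the set
`Ω ⊆ ℝ^d`, then `PerCop Γ Ω` has vanishing `(2 d - 2)`-dimensional Hausdorff measure (the phase
space has dimension `2 d - 2`). For `Γ = {id}` and a table with `C^∞` boundary: for almost every
periodic point, of any period, at least two bounces of a period are neither at umbilic points nor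
ends of sides coplanar with the two adjacent sides. In particular:

* almost no periodic point has a planar orbit (any period `n`); for `n = 3` all periodic orbits are
  planar, so this includes the conjecture for triangles in all dimensions `d ≥ 3`;
* almost no periodic point has an orbit in which every other side is coplanar with its neighbours,
  and the like: the whole orbit may span `ℝ^d`.

## Outline of the proof

Let `x`, `y` be two consecutive bounces, `e` the direction from `x` to `y`, `L` the distance, `n` and
`ν` the normals at `x` and `y`. The side is coplanar with its neighbours if and only if `e`, `n`, `ν` are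
linearly dependent.

* Every differentiable function which vanishes on a set `A` in the chart of the trajectories has
  zero derivative at the points of `A` outside a set of dimension `2 d - 3` (`dimH_ker`, `small`), for
  any set `A`.
* The projection of `ν` to the complement of the plane of `e` and `n` vanishes on the set of the
  trajectories considered. Its derivative gives, with `ν = α e + β n`, for all `w` orthogonal to `e`
  and `n`: `S_y w = - (α / L) w`, `S_x w = - (α / (β L)) w` for the shape operators, and `β ≠ 0`
  (`first`). So the two centres of curvature in the direction `w` coincide.
* The derivative of these two relations in the direction which rotates the side in the plane about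
  its end `y` (so that `S_y` is constant) and about its end `x`, respectively, gives
  the shape operators in the plane: both `x` and `y` are umbilic (`second0`, `second1`, `umb`). No
  derivative of the curvature enters.
* This holds for all coplanar sides of all the periodic trajectories considered, outside a set of
  dimension `2 d - 3` (`set_small`, `pb_small`). So almost all of them have at most one non-umbilic
  bounce, and the theorem `OneNonUmbilicBounce` of the starting files applies (`perOne_null`).
-/

set_option autoImplicit false

open MeasureTheory

namespace Pool.Agent.Results.MP_249f74_an.CoplanarSides

open Pool.Agent.T2H44.PL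

/-- For every `d ≥ 3`, every table `Ω ⊆ ℝ^d` and every countable set `Γ` of isometries preserving
`Ω`, the phase points whose trajectory is periodic modulo `Γ`, with any number of bounces in a
period (at `C^∞` points of the boundary), at most one of which is neither at an umbilic point nor an
end of a side coplanar with the two adjacent sides, form a set of `(2 d - 2)`-dimensional Hausdorff
measure zero. -/
theorem result (d : ℕ) (hd : 3 ≤ d) (Ω : Set (EuclideanSpace ℝ (Fin d)))
    (Γ : Set (EuclideanSpace ℝ (Fin d) ≃ᵃⁱ[ℝ] EuclideanSpace ℝ (Fin d)))
    (hΓ : Γ.Countable) (hinv : ∀ g ∈ Γ, g ⁻¹' Ω = Ω) :
    μH[((2 * d - 2 : ℕ) : ℝ)] (PerCop Γ Ω) = 0 :=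
  perCop_null hd Ω Γ hΓ hinv

end Pool.Agent.Results.MP_249f74_an.CoplanarSides
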