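import Pool.Agent.T2H44.DF.Main

/-!
# Ivrii's conjecture for orbits with focusing bounces and defocusing, off one arbitrary bounce

Definitions (files `Pool/Agent/H721R2/Ivrii/Def.lean`, `Pool/Agent/TH318/IvDef.lean` and
`Pool/Agent/T2H44/DF/Def.lean`), for a set `Ω` (the table) in a Euclidean space `E` of dimension `d`:

* `LocalDef Ω q F`: near `q` the table is `{F < 0}`, `F` is `C³` near `q`, `F q = 0` and the
  gradient of `F` at `q` is not zero;
* `OrbitMod Ω g n p u`: `(p k, u k)` is a billiard trajectory of unit speed (transversal reflections
  at regular boundary points) which is carried into itself by the isometry `g` after `n ≥ 1`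
  bounces: `p (k+n) = g (p k)`, `u (k+n) = g' (u k)`, where `g'` is the linear part of `g`;
* `NonFocusing Ω q`, `ZeroCurv Ω q`: all principal curvatures of the boundary at `q` are `≤ 0`, or
  `= 0` (positive curvature is focusing);
* `FocGe Ω q u κ`: for some local equation `F`, `2 |⟪∇F, u⟫| F''(w, w) ≥ κ |∇F|² (|w|² - ⟪u, w⟫²)`
  for all tangent vectors `w`: the bounce with outgoing direction `u` is focusing in all directions
  with strength at least `κ`; in the plane, `κ ≤ 2 c / sin θ` (`c` the curvature, `θ` the angle between
  the trajectory and the boundary);
* `Spreads Ω n p u`: there are numbers `a k`, `b k` with `b 0 = 0`,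
  `a (k + 1) ≤ b k + |p (k + 1) - p k|` for `k < n`, `0 < a n`, and for `0 < k < n`
  - the bounce `k` is flat to second order and `b k ≤ a k`, or
  - it is non-focusing and `b k ≤ 0 ≤ a k`, or
  - it is focusing with strength at least `κ > 0` in all directions, `1 < κ a k` and
    `b k ≤ - a k / (κ a k - 1)`;
* `SpreadPer Γ Ω`: the phase points `(p 0, u 0)` of the trajectories periodic modulo some `g ∈ Γ`,
  with any number `n` of bounces in a period, such that `Spreads` holds for the path which starts at
  one of the bounces of the period.

So nothing is asked of the bounce where the path starts (and ends), and the other bounces are flat,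
dispersing (non-focusing), or strongly focusing, with enough room before and behind a focusing
bounce: a beam which diverges from the points at least `a k` behind is focused by this bounce
within the distance `a k / (κ a k - 1)` and is diverging again when it comes to the next curved bounce.
This is the mechanism of the Bunimovich and Wojtkowski tables. In the second part it is written with the
reach `f k` of the bounce: `f k = 0` for a non-focusing bounce, and a strength at least `2 / f k` for a
focusing one (in the plane `f k = sin θ / c`: the half of the chord which the osculating circle cuts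
out of the side); the condition is `f k + f (k + 1) ≤ |p (k + 1) - p k|`.

The theorem: if `d ≥ 2` and `Γ` is a countable set of isometries preserving `Ω`, then `SpreadPer Γ Ω`
has Hausdorff dimension at most `d - 1`, half of the dimension `2 (d - 1)` of the phase space; so it is
negligible, which is what the conjecture asks for.

## Outline of the proof

Unfolding (parallel transport along the trajectory) gives the Jacobi fields in `u 0 ^⊥`, with kicks
`K k` (symmetric). A closed Jacobi field vanishing at the arbitrary bounce stays in the cones
`⟪y, y'⟫ ≥ a |y'|²` before and `⟪y, y'⟫ ≥ b |y'|²` after the bounces (in dimension `> 1` the cone condition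
for a symmetric kick with `⟪K y, y⟫ ≤ - κ |y|²` needs an inequality for quadratic forms), so it cannot
vanish when it comes back. Hence the closed Jacobi fields form a space of dimension at most `d - 1`, at
every point of the set, and the set is locally contained in the zero set of a map whose derivative
has a kernel of dimension at most `d - 1`: a set of Hausdorff dimension at most `d - 1` (`dimH_ker`).
-/

set_option autoImplicit false

open scoped ENNReal
open Pool.Agent.T2H44.DF Pool.Agent.TH318.Iv Pool.Agent.H721R2.Ivrii

namespace Pool.Agent.Results.MP_249f74_an.DefocusingBeams

/-- Periodic billiard trajectories (of any period, modulo a countable set of isometries of the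
table) such that, off one arbitrary bounce of the period, the bounces are flat, non-focusing or
strongly focusing, and every beam leaving the exceptional bounce comes back to it diverging, form
a set of Hausdorff dimension at most `d - 1`; this holds when the consecutive sides are at least the
sums of the reaches of the bounces at their ends. -/
theorem result {E : Type*} [NormedAddCommGroup E] [InnerProductSpace ℝ E] [FiniteDimensional ℝ E]
    (hd : 2 ≤ Module.finrank ℝ E) (Ω : Set E) (Γ : Set (E ≃ᵃⁱ[ℝ] E)) (hΓ : Γ.Countable)
    (hinv : ∀ g ∈ Γ, g ⁻¹' Ω = Ω) :
    dimH (SpreadPer Γ Ω) ≤ ((Module.finrank ℝ E - 1 : ℕ) : ℝ≥0∞) ∧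
    ∀ (n : ℕ) (p u : ℕ → E) (f : ℕ → ℝ), 1 ≤ n → f 0 = 0 →
      (∀ k, 0 < k → k < n → Reach Ω (p k) (u k) (f k)) →
      (∀ k, k + 1 < n → f k + f (k + 1) ≤ ‖p (k + 1) - p k‖) →
      f (n - 1) < ‖p n - p (n - 1)‖ → Spreads Ω n p u :=
  ⟨spread_dim (by omega) Ω Γ hΓ hinv, fun _ _ _ f hn f0 hr hL hl => spreads_of_reach hn f f0 hr hL hl⟩

end Pool.Agent.Results.MP_249f74_an.DefocusingBeams
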