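import Pool.Agent.T2H44.IV.Main2

/-!
# Ivrii's conjecture for orbits with fewer than `2 (d - 1)` focusing directions over a period

Definitions (files `Pool/Agent/H721R2/Ivrii/Def.lean`, `Pool/Agent/TH318/IvDef.lean` and
`Pool/Agent/T2H44/IV/Def.lean`), for a set `Ω` (the table) in a Euclidean space `E` of dimension `d`:

* `LocalDef Ω q F`: near `q` the table is `{F < 0}`, `F` is `C³` near `q`, `F q = 0` and the
  gradient of `F` at `q` is not zero;
* `OrbitMod Ω g n p u`: `(p k, u k)` is a billiard trajectory of unit speed (transversal reflections
  at regular boundary points) which is carried into itself by the isometry `g` after `n ≥ 1`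
  bounces: `p (k+n) = g (p k)`, `u (k+n) = g' (u k)`, where `g'` is the linear part of `g`;
* `FocLe Ω q u r β`: for some such `F` at `q` and some vectors `a 1, ..., a r`,
  `2 |⟪∇F, u⟫| F''(w, w) ≤ β |∇F|² (|w|² - ⟪u, w⟫²)` for all tangent vectors `w` orthogonal to the
  `a i`: off `r` directions the bounce with outgoing direction `u` is focusing with strength at most
  `β`. For `β = 0`: at most `r` principal curvatures of the boundary at `q` are positive (focusing);
* `transport u n y`: the parallel transport of the vector `y` along the trajectory with directions
  `u 0, u 1, ..., u n` (at every bounce it is reflected in the tangent hyperplane);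
* `WeakTotal g n p u β`: `β k = 0` for all `k < n`, or `ℓ ∑ β k < ρ` for some `ρ` such that
  `|P y - g' y|² ≥ ρ |y|²` for all `y` orthogonal to `u 0`, where `ℓ` is the length of a period and
  `P = transport u n`;
* `Par g n`: `det g' (-1)^n = (-1)^d`; for `g = 1`, `n` and `d` have the same parity;
* `FewDir Γ Ω`: the phase points `(p 0, u 0)` of the trajectories periodic modulo some `g ∈ Γ`, with
  any number `n` of bounces in a period, such that `FocLe Ω (p k) (u k) (r k) (β k)`, `β k ≥ 0`, for
  `k < n`, and either `WeakTotal` holds and `∑ r k < 2 (d - 1)`, or the parity condition `Par` holds,
  all `β k = 0` and `∑ r k ≤ 2 (d - 1)`.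

The theorem: if `d ≥ 2` and `Γ` is a countable set of isometries preserving `Ω`, then `FewDir Γ Ω` has
Hausdorff dimension at most `2 d - 3`; the phase space has dimension `2 d - 2`, so this set is
negligible, which is what the conjecture asks for. For `Γ = {id}` and the `β k = 0`: for almost every
periodic point, of any period, the numbers of positive principal curvatures at the bounces of a
period add up to at least `2 (d - 1)`, and to at least `2 (d - 1) + 1` if the period and the dimension
have the same parity.

## Outline of the proof

If the closed trajectories near a given one form a set of dimension larger than `2 d - 3`, then at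
some of them all the variations close up (`dimH_ker`). Unfolding (parallel transport along the
trajectory) gives the Jacobi fields: all `2 (d - 1)` solutions of a second order equation with
kicks `K k` in `u 0 ^⊥`, all of them closed up to the holonomy `U` (`unf_jc`). The index form
`I(Y, Y) = ∫ |Y'|² + ∑ ⟪K k Y, Y⟫` vanishes on the closed Jacobi fields. If `∑ r k < 2 (d - 1)`, there
is a nonzero closed Jacobi field orthogonal to the focusing directions at all bounces, so `∫ |Y'|²` is
zero or bounded by `∑ β k |Y|²`, and `Y` is parallel, or too small for the holonomy; a parallel field
which is annihilated by all kicks contradicts the closing of the field with the derivative `Y`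
(`Jc.foc`, `Jc.foc_weak`). In the parity case some
Jacobi field which vanishes at the vertex `0` vanishes again strictly inside the period (a determinant
changes its sign, `exists_conj` of the starting files); cutting it off there gives a broken field `Y`
with `I(Y, Y) < 0` (`Jc.exists_neg`), and the form is negative semidefinite on the span of `Y` and the
closed Jacobi fields, of dimension `2 (d - 1) + 1` (`Jc.foc_neg`).
-/

set_option autoImplicit false

open scoped ENNReal
open Pool.Agent.T2H44.IV

namespace Pool.Agent.Results.MP_249f74_an.FocusingDirections

/-- Periodic billiard trajectories (of any period, modulo a countable set of isometries of the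
table) with fewer than `2 (d - 1)` focusing directions over a period (counted at all the bounces, the
other directions being non-focusing, or weakly focusing relative to the holonomy), or with at most
`2 (d - 1)` if the parity condition holds, form a set of Hausdorff dimension at most `2 d - 3`. -/
theorem result {E : Type*} [NormedAddCommGroup E] [InnerProductSpace ℝ E] [FiniteDimensional ℝ E]
    (hd : 2 ≤ Module.finrank ℝ E) (Ω : Set E) (Γ : Set (E ≃ᵃⁱ[ℝ] E)) (hΓ : Γ.Countable)
    (hinv : ∀ g ∈ Γ, g ⁻¹' Ω = Ω) :
    dimH (FewDir Γ Ω) ≤ ((2 * Module.finrank ℝ E - 3 : ℕ) : ℝ≥0∞) :=
  dim_dir hd Ω Γ hΓ hinv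

end Pool.Agent.Results.MP_249f74_an.FocusingDirections
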