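import Pool.Agent.T2H44.IV.Main2

/-!
# Ivrii's conjecture for orbits of small total rank

Definitions (files `Pool/Agent/H721R2/Ivrii/Def.lean` and `Pool/Agent/T2H44/IV/Def.lean`), for a set
`Ω` (the table) in a Euclidean space `E` of dimension `d`:

* `LocalDef Ω q F`: near `q` the table is `{F < 0}`, `F` is `C³` near `q`, `F q = 0` and the
  gradient of `F` at `q` is not zero;
* `RankLe Ω q r`: for some such `F` at `q` and some vectors `a 1, ..., a r`, `F''(w, w') = 0` for all
  tangent vectors `w`, `w'` at `q` with `w` orthogonal to the `a i`, i.e. the boundary is regular at `q`
  and at most `r` of its principal curvatures at `q` are not zero (of any sign);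
* `OrbitMod Ω g n p u`: `(p k, u k)` is a billiard trajectory of unit speed (transversal reflections
  at regular boundary points) which is carried into itself by the isometry `g` after `n ≥ 1`
  bounces: `p (k+n) = g (p k)`, `u (k+n) = g' (u k)`, where `g'` is the linear part of `g`;
* `transport u n y`: the parallel transport of the vector `y` along the trajectory with directions
  `u 0, u 1, ..., u n` (at every bounce it is reflected in the tangent hyperplane);
* `LowRank Γ Ω`: the phase points `(p 0, u 0)` of the trajectories periodic modulo some `g ∈ Γ`, with
  any number `n` of bounces in a period, such that `RankLe Ω (p k) (r k)` for `k < n`, there are `v`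
  linearly independent vectors `y` orthogonal to `u 0` which are fixed by the holonomy,
  `transport u n y = g' y`, and `∑ r k < 2 (d - 1) + v`.

The theorem: if `d ≥ 2` and `Γ` is a countable set of isometries preserving `Ω`, then `LowRank Γ Ω` has
Hausdorff dimension at most `2 d - 3`; the phase space has dimension `2 d - 2`, so this set is
negligible, which is what the conjecture asks for. For `Γ = {id}`: for almost every periodic point,
of any period, the numbers of the nonzero principal curvatures at the bounces of a period add up to
at least `2 (d - 1) + v`, where `v` is the number of the independent normal directions which come
back to themselves under the parallel transport along the trajectory. There is no condition on the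
signs of the curvatures.

## Outline of the proof

If the closed trajectories near a given one form a set of dimension larger than `2 d - 3`, then at
some of them all the variations close up (`dimH_ker`). Unfolding gives the Jacobi fields: all
`2 (d - 1)` solutions `A` of a second order equation with kicks `K k` in the complement `W` of `u 0`,
all of them closed up to the holonomy `U` (`unf_jc`). No nonzero closed field is annihilated by
all the kicks (`Jc.nokick`), so the kicks `K k (A (k + 1))` embed the space of Jacobi fields in the sum
`R` of the ranges of the `K k`. By duality the map which sends an element of `R` to the total change of
the velocity and of the position that it produces over a period is onto the sum of two copies of `W`.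
Its kernel contains the kicks of the Jacobi fields which start with the value `w` and the derivative
`0` for the vectors `w` fixed by `U`, since these fields close up. So the dimension of `R` is at least
`2 (d - 1) + v` (`Jc.rank`).
-/

set_option autoImplicit false

open scoped ENNReal
open Pool.Agent.T2H44.IV

namespace Pool.Agent.Results.MP_249f74_an.TotalRank

/-- Periodic billiard trajectories (of any period, modulo a countable set of isometries of the
table) for which the total rank of the second fundamental form of the boundary at the bounces of a
period is less than `2 (d - 1) + v`, where `v` is the dimension of the space of the normal vectors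
fixed by the holonomy, form a set of Hausdorff dimension at most `2 d - 3`. -/
theorem result {E : Type*} [NormedAddCommGroup E] [InnerProductSpace ℝ E] [FiniteDimensional ℝ E]
    (hd : 2 ≤ Module.finrank ℝ E) (Ω : Set E) (Γ : Set (E ≃ᵃⁱ[ℝ] E)) (hΓ : Γ.Countable)
    (hinv : ∀ g ∈ Γ, g ⁻¹' Ω = Ω) :
    dimH (LowRank Γ Ω) ≤ ((2 * Module.finrank ℝ E - 3 : ℕ) : ℝ≥0∞) :=
  dim_rank hd Ω Γ hΓ hinv

end Pool.Agent.Results.MP_249f74_an.TotalRank
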